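import Pool.Agent.helper46.T1.SpecP
import Pool.Agent.helper79.MS.SCH
import Pool.Agent.helper92.MS.REP
import Pool.Agent.helper43.MS.NM3
import Pool.Agent.helper22.MS.GKF

/-!
# MP_07c750, project T1, row XCM (helper61): a slowly varying symbol commutes with the change of the packets
-/

set_option autoImplicit false

open scoped MatrixGroups ContDiff Topology UpperHalfPlane ComplexConjugate ENNReal
open UpperHalfPlane MeasureTheory Filter Set

namespace Pool.Agent.TP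

open Pool.Agent.RS Pool.Agent.MS

theorem XCM_REP : REP_stmt := REP_proof A_GDU A_GR2 A_GWB A_GYN A_GBD A_FL0

theorem XCM_NM3 : NM3_stmt := NM3_proof A_ALH A_BK5 A_CV1 A_FL0 A_GR2 A_EF1 A_NR5

theorem XCM_sq (x y : ℝ≥0∞) : (x + y) ^ 2 ≤ 4 * (x ^ 2 + y ^ 2) := by
  rcases le_total x y with h | h
  · calc (x + y) ^ 2 ≤ (y + y) ^ 2 := by gcongr
      _ = 4 * y ^ 2 := by ring
      _ ≤ 4 * (x ^ 2 + y ^ 2) := by gcongr; exact le_add_self
  · calc (x + y) ^ 2 ≤ (x + x) ^ 2 := by gcongr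
      _ = 4 * x ^ 2 := by ring
      _ ≤ 4 * (x ^ 2 + y ^ 2) := by gcongr; exact le_self_add

theorem XCM_mass (C r s ε : ℝ) (hr : 1 ≤ r) (hs : 0 < s) (hs1 : s ≤ 1) (hC : 0 < C)
    (h1 : 27 * s * C ≤ ε / 2) (h2 : 20 * C ≤ ε * s * r) :
    (16 * s ^ 2 + 10 * (s ^ 2 * r + 1) * (1 / (r * s))) * (C / r) + C / (r ^ 2 * (1 / (r * s))) ≤ ε / r := by
  have hr0 : 0 < r := by linarith
  have e1 : (16 * s ^ 2 + 10 * (s ^ 2 * r + 1) * (1 / (r * s))) * (C / r) + C / (r ^ 2 * (1 / (r * s))) =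
      (C * (16 * s ^ 2 + 11 * s) + 10 * C / (r * s)) / r := by
    field_simp
    ring
  rw [e1]
  have e2 : 10 * C / (r * s) ≤ ε / 2 := by
    rw [div_le_iff₀ (by positivity)]
    nlinarith
  have e3 : C * (16 * s ^ 2 + 11 * s) ≤ ε / 2 := by
    have e4 : s ^ 2 ≤ s := by nlinarith
    have e5 : C * s ^ 2 ≤ C * s := by gcongr
    nlinarith
  gcongr
  linarith

theorem XCM_st (β : ℝ → ℝ) : st (-(0 : ℝ)) β = β := by
  funext x
  unfold st
  simp

/-- the pointwise bound -/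
theorem XCM_pt (k : SL(2, ℝ) → ℝ) (b G : SL(2, ℝ) → ℂ) (D : SL(2, ℝ) → ℝ) (h : SL(2, ℝ))
    (hD : ∀ q, |k (h * q) - k h| * ‖G q‖ ≤ D q * ‖G q‖) :
    ‖∫ q, ((k (h * q) - k h : ℝ) : ℂ) * b (h * q) * G q ∂mG‖ₑ ≤
      ∫⁻ q, ENNReal.ofReal ‖b (h * q)‖ * ENNReal.ofReal (D q * ‖G q‖) ∂mG := by
  refine (enorm_integral_le_lintegral_enorm _).trans ?_
  refine lintegral_mono fun q => ?_
  have e1 : ‖((k (h * q) - k h : ℝ) : ℂ) * b (h * q) * G q‖ₑ = ENNReal.ofReal (‖b (h * q)‖ * (|k (h * q) - k h| * ‖G q‖)) := by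
    rw [← ofReal_norm, norm_mul, norm_mul, Complex.norm_real, Real.norm_eq_abs]
    congr 1
    ring
  rw [e1, ← ENNReal.ofReal_mul (norm_nonneg _)]
  exact ENNReal.ofReal_le_ofReal (mul_le_mul_of_nonneg_left (hD q) (norm_nonneg _))

theorem XCM_proof (hXKM : XKM_stmt) (hXDK : XDK_stmt) (hXSC : XSC_stmt) : XCM_stmt := by
  classical
  intro Γ F β α β' α' hΓ hF hβ hα hβ' hα' η hη
  obtain ⟨C, hC, hKM⟩ := hXKM β' α' β α hβ'.1 hα'.1 hβ.1 hα.1
  obtain ⟨ε, hε0, hε1, hεη⟩ : ∃ ε : ℝ, 0 < ε ∧ ε ≤ 1 ∧ ε ≤ η / 16 :=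
    ⟨min 1 (η / 16), lt_min one_pos (by positivity), min_le_left _ _, min_le_right _ _⟩
  obtain ⟨ra, hra1, hra⟩ := XCM_NM3 Γ F α β hΓ hF hα hβ ε hε0
  obtain ⟨rb, hrb1, hrb⟩ := XCM_NM3 Γ F α' β' hΓ hF hα' hβ' ε hε0
  obtain ⟨s, hs0, hs1, hsC⟩ : ∃ s : ℝ, 0 < s ∧ s ≤ 1 ∧ 27 * s * C ≤ ε / 2 := by
    refine ⟨min 1 (ε / (54 * C)), lt_min one_pos (by positivity), min_le_left _ _, ?_⟩
    have h1 : min 1 (ε / (54 * C)) ≤ ε / (54 * C) := min_le_right _ _
    rw [le_div_iff₀ (by positivity)] at h1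
    linarith
  refine ⟨s ^ 2, max (max ra rb) (20 * C / (ε * s)), by positivity,
    (hra1.trans (le_max_left _ _)).trans (le_max_left _ _), ?_⟩
  intro r φ k ka kn kl hr hφ hn hk hk01 hke hka hkn hkl
  have hr_a : ra ≤ r := ((le_max_left _ _).trans (le_max_left _ _)).trans hr
  have hr_b : rb ≤ r := ((le_max_right _ _).trans (le_max_left _ _)).trans hr
  have hr_c : 20 * C ≤ ε * s * r := by
    have h1 : 20 * C / (ε * s) ≤ r := (le_max_right _ _).trans hr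
    rw [div_le_iff₀ (by positivity)] at h1
    linarith
  have hr1 : 1 ≤ r := hra1.trans hr_a
  have hr0 : 0 < r := by linarith
  obtain ⟨hKM1, hKM2⟩ := hKM r hr1
  have hT : TB (1 / 4) (pc β α) := (A_CV1.2.2 (1 / 4) α β hα.1 hβ.1).1
  have hT' : TB (1 / 4) (pc β' α') := (A_CV1.2.2 (1 / 4) α' β' hα'.1 hβ'.1).1
  have hpk : ∀ c : ℍ → ℂ, TB (1 / 4) c → Continuous (pk r c) ∧ HasCompactSupport (pk r c) := by
    intro c hc
    have hpk := A_FL0.2.1 (1 / 4) r c hc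
    exact ⟨((QU.A_CA1 ℂ).1 (pk r c)).1 ((QU.A_CA1 ℂ).2.1 (pk r c) 0 ∞ (by exact_mod_cast bot_le) hpk.1), hpk.2⟩
  have hφc : InvC Γ φ := ⟨((QU.A_CA1 ℂ).1 φ).1 ((QU.A_CA1 ℂ).2.1 φ 0 2 (by norm_num) hφ.1), hφ.2.1⟩
  have hGLC := A_GLC.2.1
  have := SCH_fc A_GMG
  have := A_GMG.2.2.1
  set e : ℍ → ℂ := pk r (pc β α) with he
  set e' : ℍ → ℂ := pk r (pc β' α') with he'
  have hec : Continuous e ∧ HasCompactSupport e := hpk _ hT
  have hec' : Continuous e' ∧ HasCompactSupport e' := hpk _ hT'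
  set b : SL(2, ℝ) → ℂ := Wf e φ with hb
  set b' : SL(2, ℝ) → ℂ := Wf e' φ with hb'
  have hbG : InvG Γ b := (A_GWB Γ e φ hΓ hec.1 hec.2 hφc).1
  have hbG' : InvG Γ b' := (A_GWB Γ e' φ hΓ hec'.1 hec'.2 hφc).1
  have hbM : Measurable b := hbG.1.measurable
  have hbM' : Measurable b' := hbG'.1.measurable
  obtain ⟨m, hm⟩ := (A_GBD Γ ℂ b hΓ hbG).1
  obtain ⟨m', hm'⟩ := (A_GBD Γ ℂ b' hΓ hbG').1
  have hkM : Measurable k := hk.i0.1.measurable
  have hkn1 : ∀ g, ‖(k g : ℂ)‖ ≤ 1 := by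
    intro g
    rw [Complex.norm_real, Real.norm_eq_abs, abs_of_nonneg (hk01 g).1]
    exact (hk01 g).2
  set v : SL(2, ℝ) → ℂ := fun g => (k g : ℂ) * b g with hv
  have hvM : Measurable v := (Complex.measurable_ofReal.comp hkM).mul hbM
  have hvm : ∀ g, ‖v g‖ ≤ m := by
    intro g
    change ‖(k g : ℂ) * b g‖ ≤ m
    rw [norm_mul]
    calc ‖(k g : ℂ)‖ * ‖b g‖ ≤ 1 * ‖b g‖ := mul_le_mul_of_nonneg_right (hkn1 g) (norm_nonneg _)
      _ ≤ m := by rw [one_mul]; exact hm g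
  have hvI : ∀ (γ : Γ) g, v ((γ : SL(2, ℝ)) * g) = v g := by
    intro γ g
    change (k ((γ : SL(2, ℝ)) * g) : ℂ) * b ((γ : SL(2, ℝ)) * g) = (k g : ℂ) * b g
    rw [hk.i0.2, hbG.2]
  set f : ℍ → ℂ := fun z => conj (e z) with hf
  have hfC : Continuous f := Complex.continuous_conj.comp hec.1
  have hfc : HasCompactSupport f := hec.2.comp_left (map_zero _)
  set G : SL(2, ℝ) → ℂ := fun q => ∫ z : ℍ, e' z * f (q⁻¹ • z) with hG
  have hGgk : ∀ q, gk r (pc β' α') (pc β α) q = G q := fun q => rfl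
  have hGm : Measurable G := by
    have a : StronglyMeasurable (Function.uncurry fun (z : ℍ) (q : SL(2, ℝ)) => e' z * f (q⁻¹ • z)) :=
      (SCH_c2 _ e' hfC hec'.1).stronglyMeasurable
    exact a.integral_prod_left.measurable
  have hGi : Integrable G mG := by
    refine ⟨hGm.aestronglyMeasurable, ?_⟩
    change ∫⁻ q, ‖G q‖ₑ ∂mG < ⊤
    have e1 : ∫⁻ q, ‖G q‖ₑ ∂mG = ∫⁻ q, ENNReal.ofReal ‖gk r (pc β' α') (pc β α) q‖ ∂mG := by
      refine lintegral_congr fun q => ?_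
      rw [hGgk, ofReal_norm]
    rw [e1]
    exact hKM1.trans_lt ENNReal.ofReal_lt_top
  have hW1 : ∀ h, Wf e' (sy Γ F f v) h = ∫ q, v (h * q) * G q ∂mG := fun h =>
    SCH_W A_GLC A_GMG A_GLI A_GPE Γ F hΓ hF f e' hfC hfc hec'.1 hec'.2 v hvM m hvm hvI h
  have hW2 : ∀ h, Wf e' (sy Γ F f b) h = ∫ q, b (h * q) * G q ∂mG := fun h =>
    SCH_W A_GLC A_GMG A_GLI A_GPE Γ F hΓ hF f e' hfC hfc hec'.1 hec'.2 b hbM m hm hbG.2 h
  set B : ℝ := bk (cc (pc β α)) r r with hB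
  have hqn : qn F (pc β α) r φ = B := by
    have h1 := (A_GR2 Γ F hΓ hF r φ hφ).2 (pc β α) r hT
    rw [h1, hn, one_mul]
  have hW3 : ∀ h, Wf e' (sy Γ F f b) h = (B : ℂ) * b' h := by
    intro h
    have h1 : sy Γ F f b = fun z => (B : ℂ) * φ z := by
      funext z
      exact XCM_REP Γ F (pc β α) r r φ hΓ hF hT hφ z
    rw [h1]
    change ∫ z : ℍ, e' z * ((B : ℂ) * φ (h • z)) = (B : ℂ) * ∫ z : ℍ, e' z * φ (h • z)
    rw [← integral_const_mul]
    refine integral_congr_ae (Filter.Eventually.of_forall fun z => ?_)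
    change e' z * ((B : ℂ) * φ (h • z)) = (B : ℂ) * (e' z * φ (h • z))
    ring
  have hmul : ∀ h : SL(2, ℝ), Measurable (fun q : SL(2, ℝ) => h * q) := fun h => (continuous_const_mul h).measurable
  have hid : ∀ h, (r : ℂ) * Wf e' (sy Γ F f v) h - (k h : ℂ) * b' h =
      (r : ℂ) * (∫ q, ((k (h * q) - k h : ℝ) : ℂ) * b (h * q) * G q ∂mG) + ((r * B - 1 : ℝ) : ℂ) * ((k h : ℂ) * b' h) := by
    intro h
    have i1 : Integrable (fun q => v (h * q) * G q) mG :=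
      hGi.bdd_mul (hvM.comp (hmul h)).aestronglyMeasurable (Filter.Eventually.of_forall fun q => hvm (h * q))
    have i2 : Integrable (fun q => b (h * q) * G q) mG :=
      hGi.bdd_mul (hbM.comp (hmul h)).aestronglyMeasurable (Filter.Eventually.of_forall fun q => hm (h * q))
    have i3 : ∫ q, ((k (h * q) - k h : ℝ) : ℂ) * b (h * q) * G q ∂mG =
        (∫ q, v (h * q) * G q ∂mG) - (k h : ℂ) * ∫ q, b (h * q) * G q ∂mG := by
      rw [← integral_const_mul, ← integral_sub i1 (i2.const_mul _)]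
      refine integral_congr_ae (Filter.Eventually.of_forall fun q => ?_)
      change ((k (h * q) - k h : ℝ) : ℂ) * b (h * q) * G q = (k (h * q) : ℂ) * b (h * q) * G q - (k h : ℂ) * (b (h * q) * G q)
      push_cast
      ring
    rw [i3, ← hW1, ← hW2, hW3]
    push_cast
    ring
  -- the bound for the kernel
  set ρ : ℝ := 1 / (r * s) with hρ
  have hρ0 : 0 < ρ := by positivity
  set δ : ℝ := 16 * s ^ 2 + 10 * (s ^ 2 * r + 1) * ρ with hδ
  have hδ0 : 0 ≤ δ := by positivity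
  set S : Set SL(2, ℝ) := {q | ρ < |q.1 1 0|} with hS
  have hent : Measurable (fun q : SL(2, ℝ) => q.1 1 0) := by
    have h1 : Continuous (fun q : SL(2, ℝ) => q.1 1 0) :=
      (continuous_apply_apply (1 : Fin 2) (0 : Fin 2)).comp continuous_subtype_val
    exact h1.measurable
  have hSm : MeasurableSet S := measurableSet_lt measurable_const hent.abs
  set D : SL(2, ℝ) → ℝ := fun q => S.indicator (fun _ => (1 : ℝ)) q + δ with hD
  have hD0 : ∀ q, 0 ≤ D q := fun q => add_nonneg (Set.indicator_nonneg (fun _ _ => zero_le_one) q) hδ0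
  have hDM : Measurable D := (measurable_const.indicator hSm).add_const δ
  have hkD : ∀ h q : SL(2, ℝ), |k (h * q) - k h| * ‖G q‖ ≤ D q * ‖G q‖ := by
    intro h q
    by_cases hq0 : G q = 0
    · rw [hq0, norm_zero, mul_zero, mul_zero]
    refine mul_le_mul_of_nonneg_right ?_ (norm_nonneg _)
    have hq3 : ∀ i j, |q.1 i j| ≤ 3 := by
      refine (GKF_proof β' α' β α 0 r q hβ'.1 hα'.1 hβ.1 hα.1 le_rfl hr1).1 ?_
      rw [XCM_st, hGgk]
      exact hq0
    by_cases hqS : q ∈ S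
    · have h1 : D q = 1 + δ := by
        change S.indicator (fun _ => (1 : ℝ)) q + δ = 1 + δ
        rw [Set.indicator_of_mem hqS]
      rw [h1, abs_le]
      constructor
      · linarith [(hk01 (h * q)).1, (hk01 h).2]
      · linarith [(hk01 (h * q)).2, (hk01 h).1]
    · have h1 : D q = δ := by
        change S.indicator (fun _ => (1 : ℝ)) q + δ = δ
        rw [Set.indicator_of_notMem hqS, zero_add]
      rw [h1]
      have h2 := hXDK Γ k ka kn kl (s ^ 2) (s ^ 2 * r) hk hk01 hke (by positivity) (by positivity) hka hkn hkl h q hq3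
      refine h2.trans ?_
      have h3 : |q.1 1 0| ≤ ρ := not_lt.1 hqS
      have h4 : 10 * (s ^ 2 * r + 1) * |q.1 1 0| ≤ 10 * (s ^ 2 * r + 1) * ρ :=
        mul_le_mul_of_nonneg_left h3 (by positivity)
      linarith
  have hmass : ∫⁻ q, ENNReal.ofReal (D q * ‖G q‖) ∂mG ≤ ENNReal.ofReal (ε / r) := by
    have e1 : ∀ q, ENNReal.ofReal (D q * ‖G q‖) =
        S.indicator (fun q => ENNReal.ofReal ‖G q‖) q + ENNReal.ofReal δ * ENNReal.ofReal ‖G q‖ := by
      intro q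
      have e2 : D q * ‖G q‖ = S.indicator (fun _ => (1 : ℝ)) q * ‖G q‖ + δ * ‖G q‖ := by
        change (S.indicator (fun _ => (1 : ℝ)) q + δ) * ‖G q‖ = _
        ring
      rw [e2, ENNReal.ofReal_add (mul_nonneg (Set.indicator_nonneg (fun _ _ => zero_le_one) q) (norm_nonneg _))
        (mul_nonneg hδ0 (norm_nonneg _)), ENNReal.ofReal_mul hδ0]
      congr 1
      by_cases hqS : q ∈ S
      · rw [Set.indicator_of_mem hqS, Set.indicator_of_mem hqS, one_mul]
      · rw [Set.indicator_of_notMem hqS, Set.indicator_of_notMem hqS, zero_mul, ENNReal.ofReal_zero]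
    simp only [e1]
    rw [lintegral_add_left ((hGm.norm.ennreal_ofReal).indicator hSm), lintegral_indicator hSm,
      lintegral_const_mul _ hGm.norm.ennreal_ofReal]
    have e3 : ∫⁻ q in S, ENNReal.ofReal ‖G q‖ ∂mG ≤ ENNReal.ofReal (C / (r ^ 2 * ρ)) := hKM2 ρ hρ0
    have e4 : ∫⁻ q, ENNReal.ofReal ‖G q‖ ∂mG ≤ ENNReal.ofReal (C / r) := hKM1
    calc ∫⁻ q in S, ENNReal.ofReal ‖G q‖ ∂mG + ENNReal.ofReal δ * ∫⁻ q, ENNReal.ofReal ‖G q‖ ∂mG
        ≤ ENNReal.ofReal (C / (r ^ 2 * ρ)) + ENNReal.ofReal δ * ENNReal.ofReal (C / r) := by gcongr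
      _ = ENNReal.ofReal (δ * (C / r) + C / (r ^ 2 * ρ)) := by
        rw [← ENNReal.ofReal_mul hδ0, ← ENNReal.ofReal_add (by positivity) (by positivity), add_comm]
      _ ≤ ENNReal.ofReal (ε / r) := ENNReal.ofReal_le_ofReal (XCM_mass C r s ε hr1 hs0 hs1 hC hsC hr_c)
  -- the integrals of the squares
  have hfinF : mG (dG F) < ⊤ := (A_GFD Γ F hΓ hF).1.2.2.1
  have hfinM : IsFiniteMeasure (mG.restrict (dG F)) := ⟨by rw [Measure.restrict_apply_univ]; exact hfinF⟩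
  have hsqI : ∀ (w : SL(2, ℝ) → ℂ) (m0 : ℝ), Measurable w → (∀ g, ‖w g‖ ≤ m0) →
      ∫⁻ g in dG F, ENNReal.ofReal ‖w g‖ ^ 2 ∂mG = ENNReal.ofReal (iR F (fun g => ‖w g‖ ^ 2)) := by
    intro w m0 hw hw0
    have h1 : Integrable (fun g => ‖w g‖ ^ 2) (mG.restrict (dG F)) := by
      refine Integrable.of_bound (hw.norm.pow_const 2).aestronglyMeasurable (m0 ^ 2) (Filter.Eventually.of_forall fun g => ?_)
      rw [Real.norm_eq_abs, abs_of_nonneg (by positivity)]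
      exact pow_le_pow_left₀ (norm_nonneg _) (hw0 g) 2
    have h2 := ofReal_integral_eq_lintegral_ofReal h1 (Filter.Eventually.of_forall fun g => by positivity)
    unfold iR
    rw [h2]
    refine lintegral_congr fun g => ?_
    rw [ENNReal.ofReal_pow (norm_nonneg _)]
  have hq1 : ∫⁻ g in dG F, ENNReal.ofReal ‖b g‖ ^ 2 ∂mG = ENNReal.ofReal (qn F (pc β α) r φ) := hsqI b m hbM hm
  have hq2 : ∫⁻ g in dG F, ENNReal.ofReal ‖b' g‖ ^ 2 ∂mG = ENNReal.ofReal (qn F (pc β' α') r φ) := hsqI b' m' hbM' hm'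
  have hn1 := (hra r hr_a).2 φ hφ
  have hn2 := (hrb r hr_b).2 φ hφ
  rw [hn, mul_one, hqn] at hn1
  rw [hn, mul_one] at hn2
  have hB2 : r * B ≤ 2 := by linarith [(abs_le.1 hn1).2]
  have hB3 : r * qn F (pc β' α') r φ ≤ 2 := by linarith [(abs_le.1 hn2).2]
  have hqn0 : 0 ≤ qn F (pc β' α') r φ := integral_nonneg fun g => by positivity
  have hB0 : 0 ≤ B := by
    rw [← hqn]
    exact integral_nonneg fun g => by positivity
  -- the final estimate
  change r * (∫ h in dG F, ‖(r : ℂ) * Wf e' (sy Γ F f v) h - (k h : ℂ) * b' h‖ ^ 2 ∂mG) ≤ η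
  by_cases hI : Integrable (fun h => ‖(r : ℂ) * Wf e' (sy Γ F f v) h - (k h : ℂ) * b' h‖ ^ 2) (mG.restrict (dG F))
  · have e1 := ofReal_integral_eq_lintegral_ofReal hI (Filter.Eventually.of_forall fun h => by positivity)
    have hptw : ∀ h, ENNReal.ofReal (‖(r : ℂ) * Wf e' (sy Γ F f v) h - (k h : ℂ) * b' h‖ ^ 2) ≤
        4 * (ENNReal.ofReal r ^ 2 * (∫⁻ q, ENNReal.ofReal ‖b (h * q)‖ * ENNReal.ofReal (D q * ‖G q‖) ∂mG) ^ 2 +
          ENNReal.ofReal ε ^ 2 * ENNReal.ofReal ‖b' h‖ ^ 2) := by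
      intro h
      rw [hid h, ENNReal.ofReal_pow (norm_nonneg _), ofReal_norm]
      have h1 := XCM_pt k b G D h (hkD h)
      have h2 : ‖(r : ℂ)‖ₑ = ENNReal.ofReal r := by
        rw [← ofReal_norm, Complex.norm_real, Real.norm_eq_abs, abs_of_pos hr0]
      have h3 : ‖((r * B - 1 : ℝ) : ℂ) * ((k h : ℂ) * b' h)‖ₑ ≤ ENNReal.ofReal ε * ENNReal.ofReal ‖b' h‖ := by
        rw [← ofReal_norm, ← ENNReal.ofReal_mul hε0.le, norm_mul, norm_mul, Complex.norm_real, Real.norm_eq_abs]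
        refine ENNReal.ofReal_le_ofReal ?_
        have h4 : ‖(k h : ℂ)‖ * ‖b' h‖ ≤ 1 * ‖b' h‖ := mul_le_mul_of_nonneg_right (hkn1 h) (norm_nonneg _)
        calc |r * B - 1| * (‖(k h : ℂ)‖ * ‖b' h‖) ≤ ε * (1 * ‖b' h‖) :=
              mul_le_mul hn1 h4 (by positivity) hε0.le
          _ = ε * ‖b' h‖ := by ring
      calc ‖(r : ℂ) * (∫ q, ((k (h * q) - k h : ℝ) : ℂ) * b (h * q) * G q ∂mG) +
            ((r * B - 1 : ℝ) : ℂ) * ((k h : ℂ) * b' h)‖ₑ ^ 2
          ≤ (ENNReal.ofReal r * (∫⁻ q, ENNReal.ofReal ‖b (h * q)‖ * ENNReal.ofReal (D q * ‖G q‖) ∂mG) +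
              ENNReal.ofReal ε * ENNReal.ofReal ‖b' h‖) ^ 2 := by
            gcongr
            refine (enorm_add_le _ _).trans ?_
            rw [enorm_mul, h2]
            gcongr
        _ ≤ _ := by
            refine (XCM_sq _ _).trans (le_of_eq ?_)
            rw [mul_pow, mul_pow]
    have hmulm : Measurable (fun p : SL(2, ℝ) × SL(2, ℝ) => p.1 * p.2) := (continuous_fst.mul continuous_snd).measurable
    have hDGm : Measurable (fun q => ENNReal.ofReal (D q * ‖G q‖)) := (hDM.mul hGm.norm).ennreal_ofReal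
    have hbm : Measurable (fun g => ENNReal.ofReal ‖b g‖) := hbM.norm.ennreal_ofReal
    have hJm : Measurable (fun h => ∫⁻ q, ENNReal.ofReal ‖b (h * q)‖ * ENNReal.ofReal (D q * ‖G q‖) ∂mG) :=
      Measurable.lintegral_prod_right ((hbm.comp hmulm).mul (hDGm.comp measurable_snd))
    have hsc := hXSC Γ F (fun g => ENNReal.ofReal ‖b g‖) (fun q => ENNReal.ofReal (D q * ‖G q‖)) hΓ hF hbm hDGm
      (fun γ g => by
        change ENNReal.ofReal ‖b ((γ : SL(2, ℝ)) * g)‖ = ENNReal.ofReal ‖b g‖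
        rw [hbG.2])
    have e2 : ENNReal.ofReal (r * (∫ h in dG F, ‖(r : ℂ) * Wf e' (sy Γ F f v) h - (k h : ℂ) * b' h‖ ^ 2 ∂mG)) ≤ ENNReal.ofReal η := by
      rw [ENNReal.ofReal_mul hr0.le, e1]
      calc ENNReal.ofReal r * ∫⁻ h in dG F, ENNReal.ofReal (‖(r : ℂ) * Wf e' (sy Γ F f v) h - (k h : ℂ) * b' h‖ ^ 2) ∂mG
          ≤ ENNReal.ofReal r * ∫⁻ h in dG F, 4 * (ENNReal.ofReal r ^ 2 *
              (∫⁻ q, ENNReal.ofReal ‖b (h * q)‖ * ENNReal.ofReal (D q * ‖G q‖) ∂mG) ^ 2 +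
                ENNReal.ofReal ε ^ 2 * ENNReal.ofReal ‖b' h‖ ^ 2) ∂mG := by
            gcongr
            exact hptw _
        _ = ENNReal.ofReal r * (4 * (ENNReal.ofReal r ^ 2 *
              (∫⁻ h in dG F, (∫⁻ q, ENNReal.ofReal ‖b (h * q)‖ * ENNReal.ofReal (D q * ‖G q‖) ∂mG) ^ 2 ∂mG) +
                ENNReal.ofReal ε ^ 2 * ENNReal.ofReal (qn F (pc β' α') r φ))) := by
            have hA : Measurable (fun h => ENNReal.ofReal r ^ 2 *
              (∫⁻ q, ENNReal.ofReal ‖b (h * q)‖ * ENNReal.ofReal (D q * ‖G q‖) ∂mG) ^ 2 +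
                ENNReal.ofReal ε ^ 2 * ENNReal.ofReal ‖b' h‖ ^ 2) :=
              ((hJm.pow_const 2).const_mul _).add ((hbM'.norm.ennreal_ofReal.pow_const 2).const_mul _)
            rw [lintegral_const_mul _ hA,
              lintegral_add_left ((hJm.pow_const 2).const_mul _), lintegral_const_mul _ (hJm.pow_const 2),
              lintegral_const_mul _ (hbM'.norm.ennreal_ofReal.pow_const 2), hq2]
        _ ≤ ENNReal.ofReal r * (4 * (ENNReal.ofReal r ^ 2 *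
              (ENNReal.ofReal (ε / r) ^ 2 * ENNReal.ofReal B) +
                ENNReal.ofReal ε ^ 2 * ENNReal.ofReal (qn F (pc β' α') r φ))) := by
            gcongr
            refine hsc.trans ?_
            rw [hq1, hqn]
            gcongr
        _ = ENNReal.ofReal (4 * (ε ^ 2 * (r * B) + ε ^ 2 * (r * qn F (pc β' α') r φ))) := by
            have h4 : (4 : ℝ≥0∞) = ENNReal.ofReal 4 := by norm_num
            rw [← ENNReal.ofReal_pow hr0.le, ← ENNReal.ofReal_pow (by positivity), ← ENNReal.ofReal_pow hε0.le,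
              ← ENNReal.ofReal_mul (by positivity), ← ENNReal.ofReal_mul (by positivity), ← ENNReal.ofReal_mul (by positivity),
              ← ENNReal.ofReal_add (by positivity) (by positivity), h4, ← ENNReal.ofReal_mul (by norm_num),
              ← ENNReal.ofReal_mul hr0.le]
            congr 1
            field_simp
        _ ≤ ENNReal.ofReal η := by
            refine ENNReal.ofReal_le_ofReal ?_
            have h5 : ε ^ 2 ≤ ε := by nlinarith
            have h6 : ε ^ 2 * (r * B) ≤ ε * 2 := by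
              calc ε ^ 2 * (r * B) ≤ ε * (r * B) := mul_le_mul_of_nonneg_right h5 (by positivity)
                _ ≤ ε * 2 := mul_le_mul_of_nonneg_left hB2 hε0.le
            have h7 : ε ^ 2 * (r * qn F (pc β' α') r φ) ≤ ε * 2 := by
              calc ε ^ 2 * (r * qn F (pc β' α') r φ) ≤ ε * (r * qn F (pc β' α') r φ) := mul_le_mul_of_nonneg_right h5 (by positivity)
                _ ≤ ε * 2 := mul_le_mul_of_nonneg_left hB3 hε0.le
            linarith
    exact (ENNReal.ofReal_le_ofReal_iff hη.le).1 e2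
  · rw [integral_undef hI, mul_zero]
    exact hη.le

end Pool.Agent.TP
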